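import Pool.Agent.Lib.MP_dae8ad_gt.A.Baer

/-! Banded matrices indexed by the integers, acting on sequences of vectors. -/

namespace Pool.Agent.AS

abbrev Ker (K p q : Type) := ℤ → ℤ → Matrix p q K

variable {K : Type} [Field K] {p q : Type}

def Band (T : Ker K p q) (w : ℕ) : Prop := ∀ j j' : ℤ, (w : ℤ) < |j - j'| → T j j' = 0

def Cov (τ : K ≃+* K) (n : ℕ) (T : Ker K p q) : Prop :=
  ∀ j j' : ℤ, T (j + n) (j' + n) = (T j j').map τ

def IntK (O : Subring K) (T : Ker K p q) : Prop := ∀ j j' a b, T j j' a b ∈ O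

def IntS (O : Subring K) (v : ℤ → p → K) : Prop := ∀ j a, v j a ∈ O

noncomputable def app [Fintype q] (T : Ker K p q) (v : ℤ → q → K) : ℤ → p → K :=
  fun j => ∑ᶠ j', (T j j').mulVec (v j')

noncomputable def pair [Fintype p] (u v : ℤ → p → K) : K := ∑ᶠ j, u j ⬝ᵥ v j

def trK (T : Ker K p q) : Ker K q p := fun j j' => (T j' j).transpose

/-- For `e = 1`: bounded below; for `e = -1`: bounded above. -/
def Bd {α : Type} [Zero α] (e : ℤ) (v : ℤ → α) : Prop := ∃ J : ℤ, ∀ j, e * j < J → v j = 0

def Fs {α : Type} [Zero α] (v : ℤ → α) : Prop := Bd 1 v ∧ Bd (-1) v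

def FinInj [Fintype q] (T : Ker K p q) : Prop := ∀ v, Fs v → app T v = 0 → v = 0

/-- The semilinear translation. -/
def shv (τ : K ≃+* K) (n : ℕ) (v : ℤ → q → K) : ℤ → q → K := fun j a => τ (v (j - n) a)

def rfK (T : Ker K p q) : Ker K p q := fun j j' => T (-j) (-j')

def rfv {α : Type} (v : ℤ → α) : ℤ → α := fun j => v (-j)

/-- The part of `v` on the set of indices `s`. -/
noncomputable def cut {α : Type} [Zero α] (s : Set ℤ) (v : ℤ → α) : ℤ → α := s.indicator v

noncomputable def compK {r : Type} [Fintype q] (S : Ker K p q) (T : Ker K q r) : Ker K p r :=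
  fun j j' => ∑ᶠ k, S j k * T k j'

/-- The data of the duality theorems: two banded covariant integral matrices, injective on finite
sequences, with orthogonal images and complementary sizes. -/
structure Duo {b d : Type} [Fintype p] [Fintype b] [Fintype d] (O : Subring K) (τ : K ≃+* K)
    (n w : ℕ) (V : Ker K p d) (T : Ker K p b) : Prop where
  npos : 0 < n
  bV : Band V w
  bT : Band T w
  cV : Cov τ n V
  cT : Cov τ n T
  iV : IntK O V
  iT : IntK O T
  fV : FinInj V
  fT : FinInj T
  card : Fintype.card p = Fintype.card b + Fintype.card d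
  orth : ∀ c m, Fs c → Fs m → pair (app V c) (app T m) = 0

end Pool.Agent.AS
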