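import Pool.Agent.Lib.MP_dae8ad_gt.S.SDefs

namespace Pool.Agent.AS

variable {K : Type} [Field K] {p q r : Type} [Fintype p] [Fintype q] [Fintype r] {w w' : ℕ}

omit [Fintype p] in
theorem app_eq_sum (T : Ker K p q) (v : ℤ → q → K) (j : ℤ) (s : Finset ℤ)
    (h : ∀ j', j' ∉ s → T j j' = 0 ∨ v j' = 0) : app T v j = ∑ j' ∈ s, (T j j').mulVec (v j') := by
  refine finsum_eq_sum_of_support_subset _ fun j' hj => by_contra fun hs => hj ?_
  rcases h j' hs with h | h <;> simp [h]

omit [Fintype p] in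
theorem app_band {T : Ker K p q} (hT : Band T w) (v : ℤ → q → K) (j : ℤ) :
    app T v j = ∑ j' ∈ Finset.Icc (j - w) (j + w), (T j j').mulVec (v j') := by
  refine app_eq_sum T v j _ fun j' hj => Or.inl (hT _ _ (lt_abs.2 ?_))
  rw [Finset.mem_Icc] at hj
  omega

theorem pair_eq_sum (u v : ℤ → p → K) (s : Finset ℤ) (h : ∀ j, j ∉ s → u j = 0 ∨ v j = 0) :
    pair u v = ∑ j ∈ s, u j ⬝ᵥ v j := by
  refine finsum_eq_sum_of_support_subset _ fun j hj => by_contra fun hs => hj ?_
  rcases h j hs with h | h <;> simp [h]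

theorem pair_comm (u v : ℤ → p → K) : pair u v = pair v u := by
  exact finsum_congr fun j => dotProduct_comm _ _

theorem fs_iff {α : Type} [Zero α] (v : ℤ → α) : Fs v ↔ (Function.support v).Finite := by
  constructor
  · rintro ⟨⟨J, h⟩, J', h'⟩
    refine (Set.finite_Icc J (-J')).subset fun j hj => ⟨?_, ?_⟩
    · exact not_lt.1 fun hl => hj (h j (by omega))
    · exact not_lt.1 fun hl => hj (h' j (by omega))
  · intro h
    obtain ⟨a, ha⟩ := h.bddBelow
    obtain ⟨b, hb⟩ := h.bddAbove
    refine ⟨⟨a, fun j hj => by_contra fun hv => ?_⟩, -b, fun j hj => by_contra fun hv => ?_⟩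
    · have := ha hv
      omega
    · have := hb hv
      omega

theorem seq0_fin {u v : ℤ → p → K} (h : {j | u j ≠ 0 ∧ v j ≠ 0}.Finite) :
    (Function.support fun j => u j ⬝ᵥ v j).Finite :=
  h.subset fun j hj => ⟨fun h0 => hj (by simp [h0]), fun h0 => hj (by simp [h0])⟩

theorem pair_add {u : ℤ → p → K} (v v' : ℤ → p → K) (h : {j | u j ≠ 0 ∧ v j ≠ 0}.Finite)
    (h' : {j | u j ≠ 0 ∧ v' j ≠ 0}.Finite) : pair u (v + v') = pair u v + pair u v' := by
  unfold pair
  rw [← finsum_add_distrib (seq0_fin h) (seq0_fin h')]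
  exact finsum_congr fun j => dotProduct_add _ _ _

theorem pair_sub {u : ℤ → p → K} (v v' : ℤ → p → K) (h : {j | u j ≠ 0 ∧ v j ≠ 0}.Finite)
    (h' : {j | u j ≠ 0 ∧ v' j ≠ 0}.Finite) : pair u (v - v') = pair u v - pair u v' := by
  unfold pair
  rw [← finsum_sub_distrib (seq0_fin h) (seq0_fin h')]
  exact finsum_congr fun j => dotProduct_sub _ _ _

omit [Fintype p] in
theorem fin_of_bd {e : ℤ} (he : e = 1 ∨ e = -1) {u : ℤ → p → K} {v : ℤ → p → K} (hu : Bd e u)
    (hv : Bd (-e) v) : {j | u j ≠ 0 ∧ v j ≠ 0}.Finite := by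
  obtain ⟨J, h⟩ := hu
  obtain ⟨J', h'⟩ := hv
  refine (Set.finite_Icc (min J J') (max (-J) (-J'))).subset fun j hj => ?_
  have h1 := not_lt.1 (mt (h j) hj.1)
  have h2 := not_lt.1 (mt (h' j) hj.2)
  rw [Set.mem_Icc]
  rcases he with rfl | rfl <;> omega

theorem pair_mem {O : Subring K} {u v : ℤ → p → K} (hu : IntS O u) (hv : IntS O v) :
    pair u v ∈ O := by
  exact finsum_induction (· ∈ O) O.zero_mem (fun _ _ => O.add_mem) fun j =>
    O.sum_mem fun a _ => O.mul_mem (hu j a) (hv j a)

omit [Fintype p] in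
theorem app_add {T : Ker K p q} (hT : Band T w) (v v' : ℤ → q → K) :
    app T (v + v') = app T v + app T v' := by
  funext j
  simp only [Pi.add_apply, app_band hT, Matrix.mulVec_add, Finset.sum_add_distrib]

omit [Fintype p] in
theorem app_sub {T : Ker K p q} (hT : Band T w) (v v' : ℤ → q → K) :
    app T (v - v') = app T v - app T v' := by
  funext j
  simp only [Pi.sub_apply, app_band hT, Matrix.mulVec_sub, Finset.sum_sub_distrib]

omit [Fintype p] in
theorem app_smul {T : Ker K p q} (hT : Band T w) (a : K) (v : ℤ → q → K) :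
    app T (a • v) = a • app T v := by
  funext j
  simp only [Pi.smul_apply, app_band hT, Matrix.mulVec_smul, Finset.smul_sum]

omit [Fintype p] in
theorem app_zero (T : Ker K p q) : app T 0 = 0 := by
  funext j
  simp [app]

omit [Fintype p] in
theorem app_congr {T : Ker K p q} (hT : Band T w) {v v' : ℤ → q → K} {j : ℤ}
    (h : ∀ j', |j - j'| ≤ w → v j' = v' j') : app T v j = app T v' j := by
  rw [app_band hT, app_band hT]
  refine Finset.sum_congr rfl fun j' hj => ?_
  rw [Finset.mem_Icc] at hj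
  rw [h j' (abs_le.2 (by omega))]

omit [Fintype p] in
theorem app_bd {T : Ker K p q} (hT : Band T w) {e : ℤ} (he : e = 1 ∨ e = -1) {v : ℤ → q → K}
    (h : Bd e v) : Bd e (app T v) := by
  obtain ⟨J, h⟩ := h
  refine ⟨J - w, fun j hj => ?_⟩
  rw [app_band hT]
  refine Finset.sum_eq_zero fun j' hj' => ?_
  rw [Finset.mem_Icc] at hj'
  rw [h j' (by rcases he with rfl | rfl <;> omega), Matrix.mulVec_zero]

omit [Fintype p] in
theorem app_int {O : Subring K} {T : Ker K p q} (hT : IntK O T) {v : ℤ → q → K} (h : IntS O v) :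
    IntS O (app T v) := by
  intro j
  exact finsum_induction (fun x : p → K => ∀ a, x a ∈ O) (fun _ => O.zero_mem)
    (fun _ _ h1 h2 a => O.add_mem (h1 a) (h2 a)) fun j' a =>
      O.sum_mem fun b _ => O.mul_mem (hT j j' a b) (h j' b)

omit [Fintype p] [Fintype q] in
theorem band_trK {T : Ker K p q} (hT : Band T w) : Band (trK T) w := by
  intro j j' h
  rw [trK, hT j' j (by rwa [abs_sub_comm]), Matrix.transpose_zero]

omit [Fintype p] [Fintype q] in
theorem cov_trK {τ : K ≃+* K} {n : ℕ} {T : Ker K p q} (hT : Cov τ n T) : Cov τ n (trK T) := by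
  intro j j'
  rw [trK, hT, trK, Matrix.transpose_map]

theorem seq0_half {T : Ker K p q} (hT : Band T w) (v : ℤ → q → K) (u : ℤ → p → K) (s : Finset ℤ)
    (h : ∀ j j', u j ≠ 0 → v j' ≠ 0 → |j - j'| ≤ w → j ∈ s ∧ j' ∈ s) :
    pair (app T v) u = ∑ j ∈ s, ∑ j' ∈ s, (T j j').mulVec (v j') ⬝ᵥ u j := by
  rw [pair_eq_sum _ _ s fun j hj => ?_]
  · refine Finset.sum_congr rfl fun j _ => ?_
    by_cases hu : u j = 0
    · simp [hu]
    · rw [app_eq_sum T v j s fun j' hj' => ?_, sum_dotProduct]
      by_contra hc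
      rw [not_or] at hc
      exact hj' (h j j' hu hc.2 (not_lt.1 (mt (hT j j') hc.1))).2
  · refine or_iff_not_imp_right.2 fun hu => ?_
    rw [app_eq_sum T v j ∅ fun j' _ => ?_, Finset.sum_empty]
    by_contra hc
    rw [not_or] at hc
    exact hj (h j j' hu hc.2 (not_lt.1 (mt (hT j j') hc.1))).1

theorem seq0_adj {T : Ker K p q} (hT : Band T w) (v : ℤ → q → K) (u : ℤ → p → K) (s : Finset ℤ)
    (h : ∀ j j', u j ≠ 0 → v j' ≠ 0 → |j - j'| ≤ w → j ∈ s ∧ j' ∈ s) :
    pair (app T v) u = pair v (app (trK T) u) := by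
  rw [seq0_half hT v u s h, pair_comm v, seq0_half (band_trK hT) u v s
    fun j j' h1 h2 h3 => (h j' j h2 h1 (by rwa [abs_sub_comm])).symm, Finset.sum_comm]
  refine Finset.sum_congr rfl fun j' _ => Finset.sum_congr rfl fun j _ => ?_
  rw [trK, Matrix.mulVec_transpose, ← Matrix.dotProduct_mulVec, dotProduct_comm]

/-- The transpose is the adjoint. -/
theorem pair_app {T : Ker K p q} (hT : Band T w) {e : ℤ} (he : e = 1 ∨ e = -1) {v : ℤ → q → K}
    {u : ℤ → p → K} (hv : Bd e v) (hu : Bd (-e) u) : pair (app T v) u = pair v (app (trK T) u) := by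
  obtain ⟨J, h⟩ := hv
  obtain ⟨J', h'⟩ := hu
  refine seq0_adj hT v u (Finset.Icc (min J J' - w) (max (-J) (-J') + w)) fun j j' h1 h2 h3 => ?_
  have a1 := not_lt.1 (mt (h j') h2)
  have a2 := not_lt.1 (mt (h' j) h1)
  rw [abs_le] at h3
  simp only [Finset.mem_Icc]
  rcases he with rfl | rfl <;> omega

theorem pair_app_fs {T : Ker K p q} (hT : Band T w) (v : ℤ → q → K) {u : ℤ → p → K} (hu : Fs u) :
    pair (app T v) u = pair v (app (trK T) u) := by
  obtain ⟨⟨J, h⟩, J', h'⟩ := hu
  refine seq0_adj hT v u (Finset.Icc (J - w) (-J' + w)) fun j j' h1 _ h3 => ?_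
  have a1 := not_lt.1 (mt (h j) h1)
  have a2 := not_lt.1 (mt (h' j) h1)
  rw [abs_le] at h3
  simp only [Finset.mem_Icc]
  omega

omit [Fintype p] in
theorem app_shv {τ : K ≃+* K} {n : ℕ} {T : Ker K p q} (hT : Band T w) (hc : Cov τ n T)
    (v : ℤ → q → K) : app T (shv τ n v) = shv τ n (app T v) := by
  funext j a
  have e1 : app T (shv τ n v) j = app (fun j k => (T j k).map τ) (fun k b => τ (v k b)) (j - n) := by
    unfold app
    rw [← finsum_comp_equiv (Equiv.addRight (n : ℤ))]
    refine finsum_congr fun k => ?_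
    beta_reduce
    rw [← hc, sub_add_cancel]
    congr 1
    funext b
    simp [shv]
  have hT' : Band (fun j k => (T j k).map τ) w := fun j k h => by
    simp only [hT j k h, Matrix.map_zero _ (map_zero τ)]
  rw [e1, shv, app_band hT, app_band hT']
  simp [Finset.sum_apply, Matrix.mulVec, dotProduct]

omit [Fintype p] [Fintype r] in
theorem band_compK {S : Ker K p q} {T : Ker K q r} (hS : Band S w) (hT : Band T w') :
    Band (compK S T) (w + w') := by
  intro j j' h
  refine finsum_eq_zero_of_forall_eq_zero fun k => ?_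
  by_cases hk : (w : ℤ) < |j - k|
  · rw [hS j k hk, Matrix.zero_mul]
  · rw [hT k j' ?_, Matrix.mul_zero]
    have := abs_sub_le j k j'
    push_cast at h
    omega

omit [Fintype p] [Fintype r] in
theorem seq0_comp {S : Ker K p q} (hS : Band S w) (T : Ker K q r) (j j' : ℤ) :
    compK S T j j' = ∑ k ∈ Finset.Icc (j - w) (j + w), S j k * T k j' := by
  refine finsum_eq_sum_of_support_subset _ fun k hk => by_contra fun hs => hk ?_
  rw [Finset.mem_coe, Finset.mem_Icc] at hs
  simp only [hS j k (lt_abs.2 (by omega)), Matrix.zero_mul]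

omit [Fintype p] [Fintype r] in
theorem cov_compK {τ : K ≃+* K} {n : ℕ} {S : Ker K p q} {T : Ker K q r} (hS : Band S w)
    (h : Cov τ n S) (h' : Cov τ n T) : Cov τ n (compK S T) := by
  intro j j'
  have e1 : compK S T (j + n) (j' + n) =
      compK (fun j k => (S j k).map τ) (fun j k => (T j k).map τ) j j' := by
    unfold compK
    rw [← finsum_comp_equiv (Equiv.addRight (n : ℤ))]
    exact finsum_congr fun k => by beta_reduce; rw [← h, ← h']; rfl
  have hS' : Band (fun j k => (S j k).map τ) w := fun j k h => by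
    simp only [hS j k h, Matrix.map_zero _ (map_zero τ)]
  rw [e1, seq0_comp hS', seq0_comp hS]
  ext a b
  simp [Matrix.sum_apply, Matrix.mul_apply]

omit [Fintype p] in
theorem app_compK {S : Ker K p q} {T : Ker K q r} (hS : Band S w) (hT : Band T w')
    (v : ℤ → r → K) : app (compK S T) v = app S (app T v) := by
  funext j
  rw [app_band (band_compK hS hT), app_band hS]
  simp only [seq0_comp hS, Matrix.sum_mulVec, ← Matrix.mulVec_mulVec]
  rw [Finset.sum_comm]
  refine Finset.sum_congr rfl fun k hk => ?_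
  rw [← Matrix.mulVec_sum, ← app_eq_sum T v k _ fun j' hj => Or.inl (hT _ _ (lt_abs.2 ?_))]
  rw [Finset.mem_Icc] at hk hj
  push_cast at hj
  omega

theorem seq0_fs_single {α : Type} [Zero α] (j : ℤ) (x : α) : Fs (Pi.single j x : ℤ → α) :=
  (fs_iff _).2 ((Set.finite_singleton j).subset Pi.support_single_subset)

omit [Fintype p] in
theorem seq0_app_single (T : Ker K p q) (j j' : ℤ) (x : q → K) :
    app T (Pi.single j' x) j = (T j j').mulVec x := by
  rw [app_eq_sum T _ j {j'} fun k hk => Or.inr (Pi.single_eq_of_ne (by simpa using hk) _)]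
  simp

omit [Fintype p] in
/-- A banded matrix is determined by its action on finite sequences. -/
theorem ker_ext {S T : Ker K p q} (h : ∀ v, Fs v → app S v = app T v) : S = T := by
  classical
  funext j j'
  ext a b
  have := congrFun (congrFun (h _ (seq0_fs_single j' (Pi.single b 1))) j) a
  simpa [seq0_app_single] using this

theorem seq0_orth {V : Ker K p q} {T : Ker K p r} (hV : Band V w) (hT : Band T w')
    (h : ∀ c m, Fs c → Fs m → pair (app V c) (app T m) = 0) (m : ℤ → r → K) :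
    app (trK V) (app T m) = 0 := by
  classical
  have z : ∀ m : ℤ → r → K, app (0 : Ker K q r) m = 0 := fun m => funext fun j => by simp [app]
  have e : compK (trK V) T = 0 := by
    refine ker_ext fun m hm => ?_
    rw [app_compK (band_trK hV) hT, z]
    funext j a
    have := h _ m (seq0_fs_single j (Pi.single a 1)) hm
    rw [pair_app_fs hV _ ⟨app_bd hT (Or.inl rfl) hm.1, app_bd hT (Or.inr rfl) hm.2⟩,
      pair_eq_sum _ _ {j} fun k hk => Or.inl (Pi.single_eq_of_ne (by simpa using hk) _)] at this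
    simpa using this
  rw [← app_compK (band_trK hV) hT, e, z]

/-- Orthogonality on finite sequences gives the vanishing of the composite on all sequences. -/
theorem orth_all {V : Ker K p q} {T : Ker K p r} (hV : Band V w) (hT : Band T w')
    (h : ∀ c m, Fs c → Fs m → pair (app V c) (app T m) = 0) :
    (∀ m, app (trK V) (app T m) = 0) ∧ ∀ c, app (trK T) (app V c) = 0 := by
  exact ⟨seq0_orth hV hT h, seq0_orth hT hV fun c m hc hm => (pair_comm _ _).trans (h m c hm hc)⟩

omit [Fintype p] in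
theorem app_rf (T : Ker K p q) (v : ℤ → q → K) : app (rfK T) (rfv v) = rfv (app T v) := by
  funext j
  exact finsum_comp_equiv (Equiv.neg ℤ) (f := fun j' => (T (-j) j').mulVec (v j'))

theorem pair_rf (u v : ℤ → p → K) : pair (rfv u) (rfv v) = pair u v := by
  exact finsum_comp_equiv (Equiv.neg ℤ) (f := fun j => u j ⬝ᵥ v j)

theorem bd_rf {α : Type} [Zero α] (e : ℤ) (v : ℤ → α) : Bd e (rfv v) ↔ Bd (-e) v := by
  refine exists_congr fun J => ⟨fun h j hj => ?_, fun h j hj => h (-j) (by rwa [neg_mul_neg])⟩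
  have := h (-j) (by rwa [mul_neg, ← neg_mul])
  rwa [rfv, neg_neg] at this

theorem seq0_fs_rf {α : Type} [Zero α] {v : ℤ → α} (h : Fs v) : Fs (rfv v) :=
  ⟨(bd_rf _ _).2 h.2, (bd_rf _ _).2 (by rw [neg_neg]; exact h.1)⟩

omit [Fintype p] [Fintype q] in
theorem band_rf {T : Ker K p q} (hT : Band T w) : Band (rfK T) w := by
  intro j j' h
  exact hT _ _ (by rwa [neg_sub_neg, abs_sub_comm])

omit [Fintype p] [Fintype q] in
theorem cov_rf {τ : K ≃+* K} {n : ℕ} {T : Ker K p q} (hT : Cov τ n T) :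
    Cov τ.symm n (rfK T) := by
  intro j j'
  have := hT (-(j + n)) (-(j' + n))
  rw [show -(j + n) + n = -j by ring, show -(j' + n) + n = -j' by ring] at this
  ext a b
  simp [rfK, this]

omit [Fintype p] in
theorem finInj_rf {T : Ker K p q} (hT : FinInj T) : FinInj (rfK T) := by
  intro v hv h
  have e : rfv (rfv v) = v := funext fun j => by simp [rfv]
  rw [← e, app_rf] at h
  have h1 : app T (rfv v) = 0 := funext fun j => by simpa [rfv] using congrFun h (-j)
  rw [← e, hT _ (seq0_fs_rf hv) h1]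
  rfl

theorem duo_rf {O : Subring K} {τ : K ≃+* K} {n : ℕ} {V : Ker K p q} {T : Ker K p r}
    (h : Duo O τ n w V T) : Duo O τ.symm n w (rfK V) (rfK T) := by
  refine ⟨h.npos, band_rf h.bV, band_rf h.bT, cov_rf h.cV, cov_rf h.cT, fun j j' => h.iV _ _,
    fun j j' => h.iT _ _, finInj_rf h.fV, finInj_rf h.fT, h.card, fun c m hc hm => ?_⟩
  have e1 : rfv (rfv c) = c := funext fun j => by simp [rfv]
  have e2 : rfv (rfv m) = m := funext fun j => by simp [rfv]
  rw [← e1, ← e2, app_rf, app_rf, pair_rf]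
  exact h.orth _ _ (seq0_fs_rf hc) (seq0_fs_rf hm)

omit [Fintype p] [Fintype q] in
/-- Far to the right all entries of a banded covariant matrix are integral (finitely many entries
`T j j'` with `0 ≤ j < n`, each moved into `O` by large powers of `τ`). -/
theorem far_int {O : Subring K} {τ : K ≃+* K} (hF : Far O τ) {n : ℕ} (hn : 0 < n) [Finite p]
    [Finite q] {T : Ker K p q} (hT : Band T w) (hc : Cov τ n T) :
    ∃ J0 : ℤ, ∀ j j', J0 ≤ j → ∀ a b, T j j' a b ∈ O := by
  choose m0 hm using hF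
  obtain ⟨M, hM⟩ := (((Set.finite_Icc (0 : ℤ) n).prod ((Set.finite_Icc (-w : ℤ) (n + w)).prod
    (Set.finite_univ (α := p × q)))).image fun x => m0 (T x.1 x.2.1 x.2.2.1 x.2.2.2)).bddAbove
  have it : ∀ (m : ℕ) (j j' : ℤ) a b, T (j + m * n) (j' + m * n) a b = τ^[m] (T j j' a b) := by
    intro m j j' a b
    induction m with
    | zero => simp
    | succ m ih =>
      rw [Function.iterate_succ_apply', ← ih, Nat.cast_succ, add_mul, one_mul, ← add_assoc,
        ← add_assoc, hc, Matrix.map_apply]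
  refine ⟨M * n, fun j j' hj a b => ?_⟩
  by_cases hw : (w : ℤ) < |j - j'|
  · rw [hT j j' hw]
    exact O.zero_mem
  have hn' : (0 : ℤ) < n := by exact_mod_cast hn
  have h1 : (M : ℤ) ≤ j / n := Int.le_ediv_of_mul_le hn' hj
  obtain ⟨m, hm'⟩ := Int.eq_ofNat_of_zero_le ((Int.natCast_nonneg M).trans h1)
  have h2 := Int.emod_add_ediv_mul j n
  have h3 := Int.emod_nonneg j hn'.ne'
  have h4 := Int.emod_lt_of_pos j hn'
  rw [hm'] at h1 h2
  rw [not_lt, abs_le] at hw
  have e := it m (j - m * n) (j' - m * n) a b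
  rw [sub_add_cancel, sub_add_cancel] at e
  rw [e]
  refine (hm _ m (le_trans (hM ⟨(j - m * n, j' - m * n, a, b), ?_, rfl⟩) (by exact_mod_cast h1))).1
  simp only [Set.mem_prod, Set.mem_Icc, Set.mem_univ, and_true]
  omega

end Pool.Agent.AS
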