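import Pool.Agent.Lib.MP_dae8ad_gt.S.Seq0

namespace Pool.Agent.AS

variable {K : Type} [Field K] {p b d : Type} [Fintype p] [Fintype b] [Fintype d]
  {w n : ℕ} {τ : K ≃+* K} {O : Subring K} {V : Ker K p d} {T : Ker K p b}

theorem seqiso_ginv {I C : Type} [Fintype I] [Fintype C] (A : Matrix I C K) :
    ∃ G : Matrix C I K, A * G * A = A := by
  classical
  obtain ⟨g, hg⟩ := A.mulVecLin.rangeRestrict.exists_rightInverse_of_surjective
    (LinearMap.range_rangeRestrict _)
  obtain ⟨g', hg'⟩ := LinearMap.exists_extend g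
  refine ⟨LinearMap.toMatrix' g', Matrix.ext_of_mulVec_single fun i => ?_⟩
  have h1 := congrArg Subtype.val (LinearMap.congr_fun hg ⟨_, LinearMap.mem_range_self _ (Pi.single i 1)⟩)
  have h2 := LinearMap.congr_fun hg' ⟨_, LinearMap.mem_range_self A.mulVecLin (Pi.single i 1)⟩
  rw [← Matrix.mulVec_mulVec, ← Matrix.mulVec_mulVec, LinearMap.toMatrix'_mulVec]
  exact (congrArg A.mulVec h2).trans h1

omit [Fintype p] [Fintype b] [Fintype d] in
theorem seqiso_cov (hc : Cov τ n V) (m : ℕ) (j j' : ℤ) (a : p) (c : d) :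
    V (j + m * n) (j' + m * n) a c = τ^[m] (V j j' a c) := by
  induction m with
  | zero => simp
  | succ m ih =>
    have e : ∀ i : ℤ, i + ((m + 1 : ℕ) : ℤ) * n = i + m * n + n := fun i => by
      push_cast
      ring
    rw [e, e, hc, Matrix.map_apply, ih, Function.iterate_succ_apply']

omit [Fintype p] [Fintype b] in
theorem seqiso_win (hV : Band V w) (J : ℤ) (c : ℤ → d → K) {i : ℤ} (hi : |i| ≤ w) (a : p) :
    app V c (i + J) a = ∑ k : Finset.Icc (-(2 * w) : ℤ) (2 * w) × d,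
      V (i + J) (k.1 + J) a k.2 * c (k.1 + J) k.2 := by
  rw [app_eq_sum V c (i + J) ((Finset.Icc (-(2 * w) : ℤ) (2 * w)).map (addRightEmbedding J)),
    Finset.sum_map, Fintype.sum_prod_type, Finset.sum_apply, ← Finset.sum_coe_sort]
  · rfl
  · refine fun j' hj => Or.inl (hV _ _ ?_)
    by_contra h
    refine hj (Finset.mem_map.2 ⟨j' - J, ?_, by simp⟩)
    rw [not_lt, abs_le] at h
    rw [abs_le] at hi
    rw [Finset.mem_Icc]
    omega

omit [Fintype p] in
theorem seqiso_fin {u v : ℤ → p → K} (hv : Fs v) : {j | u j ≠ 0 ∧ v j ≠ 0}.Finite :=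
  ((fs_iff v).1 hv).subset fun _ h => h.2

omit [Fintype p] in
theorem seqiso_fin' {u v : ℤ → p → K} (hu : Fs u) : {j | u j ≠ 0 ∧ v j ≠ 0}.Finite :=
  ((fs_iff u).1 hu).subset fun _ h => h.1

theorem seqiso_zero (u : ℤ → p → K) : pair u 0 = 0 := by simp [pair]

omit [Fintype b] in
/-- Far windows are pure.  The finite matrix `A` of `V` with rows in `[-w, w]` and columns in
`[-2 w, 2 w]` has a generalized inverse `G`, `A G A = A` (a linear right inverse of
`rangeRestrict` composed with a projection on the range).  Apply `τ ^ m`: by covariance it is a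
generalized inverse for the window around `J = m n`, and it is integral for large `m`.  Put
`o = (τ ^ m G) (V c on the window)`. -/
theorem win_pure (hF : Far O τ) (hn : 0 < n) (hV : Band V w) (hc : Cov τ n V) (J0 : ℤ) :
    ∃ J, J0 ≤ J ∧ ∀ c, IntS O (app V c) →
      ∃ o, Fs o ∧ IntS O o ∧ ∀ j, |j - J| ≤ w → app V o j = app V c j := by
  classical
  obtain ⟨G, hG⟩ := seqiso_ginv (K := K) (I := Finset.Icc (-w : ℤ) w × p)
    (C := Finset.Icc (-(2 * w) : ℤ) (2 * w) × d) (Matrix.of fun i k => V i.1 k.1 i.2 k.2)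
  have h1 : ∀ᶠ m : ℕ in Filter.atTop, ∀ k i, τ^[m] (G k i) ∈ O := by
    simp only [Filter.eventually_all]
    exact fun k i => Filter.eventually_atTop.2 ((hF (G k i)).imp fun m0 h m hm => (h m hm).1)
  obtain ⟨m, hm, hm0⟩ := (h1.and (Filter.eventually_ge_atTop J0.toNat)).exists
  have h2 := congrArg (Matrix.map · ((τ : K →+* K) ^ m :)) hG
  rw [Matrix.map_mul, Matrix.map_mul, RingHom.coe_pow, RingHom.coe_coe] at h2
  refine ⟨m * n, by nlinarith [Int.self_le_toNat J0], fun c hc' => ?_⟩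
  generalize hA : (Matrix.of fun (i : Finset.Icc (-w : ℤ) w × p)
    (k : Finset.Icc (-(2 * w) : ℤ) (2 * w) × d) => V i.1 k.1 i.2 k.2).map τ^[m] = A at h2
  have h3 : ∀ (v : ℤ → d → K) (i : Finset.Icc (-w : ℤ) w × p), app V v (i.1 + m * n) i.2 =
      A.mulVec (fun k => v (k.1 + m * n) k.2) i := fun v i => by
    rw [seqiso_win hV _ v (abs_le.2 (Finset.mem_Icc.1 i.1.2)), ← hA]
    exact Finset.sum_congr rfl fun k _ => by rw [seqiso_cov hc]; rfl
  refine ⟨fun j a => if h : j - m * n ∈ Finset.Icc (-(2 * w) : ℤ) (2 * w) then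
    (G.map τ^[m]).mulVec (A.mulVec fun k => c (k.1 + m * n) k.2) (⟨_, h⟩, a) else 0,
    ⟨⟨m * n - 2 * w, fun j hj => ?_⟩, ⟨-(m * n + 2 * w), fun j hj => ?_⟩⟩, fun j a => ?_,
    fun j hj => ?_⟩
  · funext a
    exact dif_neg fun h => by
      rw [Finset.mem_Icc] at h
      omega
  · funext a
    exact dif_neg fun h => by
      rw [Finset.mem_Icc] at h
      omega
  · dsimp only
    split_ifs with h
    · exact O.sum_mem fun i _ => O.mul_mem (hm _ _) (h3 c i ▸ hc' _ _)
    · exact O.zero_mem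
  · funext a
    have e : j = j - m * n + m * n := by ring
    rw [e]
    refine (h3 _ (⟨_, Finset.mem_Icc.2 (abs_le.1 hj)⟩, a)).trans
      (Eq.trans ?_ (h3 c (⟨_, Finset.mem_Icc.2 (abs_le.1 hj)⟩, a)).symm)
    conv_rhs => rw [← h2, ← Matrix.mulVec_mulVec, ← Matrix.mulVec_mulVec]
    congr 1
    funext k
    simp

/-- Let `x` vanish above `Jx`, take `J > Jx + w` from `win_pure`; `m1` = part of `m` on `j ≤ J`
(finite), `m2 = m - m1`, `r = T m2` (zero below `J - w`, integral above `J + w`), `r'` = part of `r`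
on `j ≤ J + w`.  Then `x - T m1 - r'` is finite and integral, `pair (V c) (T m1) = 0`
(`pair_app_fs`, `orth_all`), `pair (V c) r' = pair (V o) r' = pair (V o) r - pair (V o) (r - r')`,
`pair (V o) (T m2) = 0`. -/
theorem seqIso1 (hF : Far O τ) (h : Duo O τ n w V T) (x : ℤ → p → K) (hx : Fs x)
    (m : ℤ → b → K) (hm : Bd 1 m) (H : IntS O (x - app T m)) (c : ℤ → d → K)
    (hc : IntS O (app V c)) : pair (app V c) x ∈ O := by
  obtain ⟨Jx, hJx⟩ := hx.2
  obtain ⟨J, hJ, hw⟩ := win_pure hF h.npos h.bV h.cV (-Jx)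
  obtain ⟨o, ho, hoi, hoc⟩ := hw c hc
  obtain ⟨o1, o2⟩ := orth_all h.bV h.bT h.orth
  obtain ⟨m1, hm1, e1, e2⟩ : ∃ m1 : ℤ → b → K, Fs m1 ∧ (∀ j, j ≤ J → m1 j = m j) ∧
      ∀ j, J < j → m1 j = 0 := by
    obtain ⟨Jm, hJm⟩ := hm
    refine ⟨fun j => if j ≤ J then m j else 0, ⟨⟨Jm, fun j hj => ?_⟩, ⟨-J, fun j hj => ?_⟩⟩,
      fun j hj => if_pos hj, fun j hj => if_neg hj.not_ge⟩
    · simp [hJm j hj]
    · exact if_neg (by omega)
  have f1 : Fs (app T m1) := ⟨app_bd h.bT (Or.inl rfl) hm1.1, app_bd h.bT (Or.inr rfl) hm1.2⟩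
  have fo : Fs (app V o) := ⟨app_bd h.bV (Or.inl rfl) ho.1, app_bd h.bV (Or.inr rfl) ho.2⟩
  have r0 : ∀ j, j < J - w → app T (m - m1) j = 0 := fun j hj => by
    rw [app_congr h.bT (v' := 0), app_zero, Pi.zero_apply]
    intro j' hj'
    rw [abs_le] at hj'
    rw [Pi.sub_apply, e1 j' (by omega), sub_self, Pi.zero_apply]
  have r1 : ∀ j a, J + w < j → app T (m - m1) j a ∈ O := fun j a hj => by
    have h1 : app T (m - m1) j = app T m j := app_congr h.bT fun j' hj' => by
      rw [abs_le] at hj'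
      rw [Pi.sub_apply, e2 j' (by omega), sub_zero]
    have h2 := O.neg_mem (H j a)
    rw [Pi.sub_apply, hJx j (by omega)] at h2
    simpa [h1] using h2
  have hr : app T m = app T m1 + app T (m - m1) := by rw [← app_add h.bT, add_sub_cancel]
  have p2 : pair (app V o) (app T (m - m1)) = 0 := by
    rw [pair_comm, pair_app_fs h.bT _ fo, o2, seqiso_zero]
  generalize app T (m - m1) = r at r0 r1 hr p2
  obtain ⟨r', e3, e4⟩ : ∃ r' : ℤ → p → K, (∀ j, j ≤ J + w → r' j = r j) ∧
      ∀ j, J + w < j → r' j = 0 :=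
    ⟨fun j => if j ≤ J + w then r j else 0, fun j hj => if_pos hj, fun j hj => if_neg hj.not_ge⟩
  have e5 : ∀ j, j < J - w → r' j = 0 := fun j hj => (e3 j (by omega)).trans (r0 j hj)
  have f2 : Fs r' := ⟨⟨J - w, fun j hj => e5 j (by omega)⟩, ⟨-(J + w), fun j hj => e4 j (by omega)⟩⟩
  have i1 : IntS O (r - r') := fun j a => by
    rcases le_or_gt j (J + w) with hj | hj
    · simp [e3 j hj]
    · simpa [e4 j hj] using r1 j a hj
  have i2 : IntS O (x - r' - app T m1) := fun j a => by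
    have e : x - r' - app T m1 = x - app T m + (r - r') := by
      rw [hr]
      abel
    rw [e]
    exact O.add_mem (H j a) (i1 j a)
  have p1 : pair (app V c) r' = pair (app V o) r' := finsum_congr fun j => by
    by_cases hj : |j - J| ≤ w
    · rw [hoc j hj]
    · have : r' j = 0 := by
        rw [abs_le] at hj
        rcases le_or_gt j (J + w) with h' | h'
        · exact e5 j (by omega)
        · exact e4 j h'
      simp [this]
  have q1 := pair_mem hc i2
  have q2 := pair_mem (app_int h.iV hoi) i1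
  have f3 : Fs (x - r') :=
    (fs_iff _).2 ((((fs_iff _).1 hx).union ((fs_iff _).1 f2)).subset (Function.support_sub _ _))
  rw [pair_sub _ _ (seqiso_fin f3) (seqiso_fin f1), pair_sub _ _ (seqiso_fin hx) (seqiso_fin f2),
    pair_app_fs h.bV c f1, o1, seqiso_zero, p1] at q1
  rw [pair_sub _ _ (seqiso_fin' fo) (seqiso_fin' fo), p2] at q2
  simpa using O.sub_mem q1 q2

/-- By reflection (`duo_rf`). -/
theorem seqIso (hF : Far O τ) (h : Duo O τ n w V T) {e : ℤ} (he : e = 1 ∨ e = -1)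
    (x : ℤ → p → K) (hx : Fs x) (m : ℤ → b → K) (hm : Bd e m) (H : IntS O (x - app T m))
    (c : ℤ → d → K) (hc : IntS O (app V c)) : pair (app V c) x ∈ O := by
  rcases he with rfl | rfl
  · exact seqIso1 hF h x hx m hm H c hc
  · have h1 := seqIso1 (τ := τ.symm) (fun k => (hF k).imp fun _ h m hm => (h m hm).symm) (duo_rf h)
      (rfv x) ⟨(bd_rf _ _).2 hx.2, (bd_rf _ _).2 hx.1⟩ (rfv m) ((bd_rf _ _).2 hm)
      (by rw [app_rf]; exact fun j a => H (-j) a) (rfv c)
      (by rw [app_rf]; exact fun j a => hc (-j) a)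
    rwa [app_rf, pair_rf] at h1

end Pool.Agent.AS
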