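import Pool.Agent.Lib.MP_dae8ad_gt.S.SeqMax
import Pool.Agent.Lib.MP_dae8ad_gt.S.SeqIso

namespace Pool.Agent.AS

theorem lagr_of {K p b d N : Type} [Field K] [Fintype p] [Fintype b] [Fintype d] [Fintype N]
    {w n : ℕ} {τ : K ≃+* K} {O : Subring K} {cj : K →+* K} {V : Ker K p d} {T : Ker K p b}
    (hp : IsPrincipalIdealRing O) (hF : Far O τ) (h : Duo O τ n w V T) (A : Matrix N N K)
    (c : N → K) (Xf : (N → K) → ℤ → p → K) (hX : ∀ y, inL O (A.mulVec y) → Fs (Xf y))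
    (hA : ∀ e : ℤ, e = 1 ∨ e = -1 → ∀ u, Bd e u → IntS O (app V u) → ∃ y, inL O (A.mulVec y) ∧
      (∃ m, Bd e m ∧ IntS O (Xf y - app T m)) ∧
      ∀ y', inL O (A.mulVec y') → bf cj A c y y' - pair (app V u) (Xf y') ∈ O)
    (hB : ∀ e : ℤ, e = 1 ∨ e = -1 → ∀ y, inL O (A.mulVec y) →
      (∃ m, Bd e m ∧ IntS O (Xf y - app T m)) → ∃ u, IntS O (app V u) ∧
      ∀ y', inL O (A.mulVec y') → bf cj A c y y' - pair (app V u) (Xf y') ∈ O) :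
    ∃ I, Lagr O cj A c I := by
  let I : ℤ → Set (N → K) := fun e =>
    {y | inL O (A.mulVec y) ∧ ∃ m, Bd e m ∧ IntS O (Xf y - app T m)}
  have iso : ∀ e : ℤ, e = 1 ∨ e = -1 → ∀ y ∈ I e, ∀ y' ∈ I e, bf cj A c y y' ∈ O := by
    rintro e he y ⟨h1, h2⟩ y' ⟨h3, m, hm, h4⟩
    obtain ⟨u, hu, H⟩ := hB e he y h1 h2
    simpa using O.add_mem (H y' h3) (seqIso hF h he _ (hX y' h3) m hm h4 u hu)
  have mx : ∀ e : ℤ, e = 1 ∨ e = -1 → ∀ y', inL O (A.mulVec y') →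
      (∀ y ∈ I e, bf cj A c y y' ∈ O) → y' ∈ I (-e) := by
    intro e he y' h1 H
    refine ⟨h1, seqMax hp hF h he _ ?_ fun u hu hi => ?_⟩
    · rcases he with rfl | rfl
      · exact (hX y' h1).2
      · simpa using (hX y' h1).1
    · obtain ⟨y, h2, h3, h4⟩ := hA e he u hu hi
      simpa using O.sub_mem (H y ⟨h2, h3⟩) (h4 y' h1)
  refine ⟨I 1, fun x => ⟨fun hx => ⟨hx.1, fun y hy => iso 1 (.inl rfl) y hy x hx⟩, fun hx => ?_⟩⟩
  have h2 := mx 1 (.inl rfl) x hx.1 hx.2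
  simpa using mx (-1) (.inr rfl) x hx.1 fun y hy => iso (-1) (.inr rfl) y hy x h2

end Pool.Agent.AS
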