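import Pool.Agent.Lib.MP_dae8ad_gt.S.Seq0

namespace Pool.Agent.AS

variable {K : Type} [Field K] {p q : Type} [Fintype p] [Fintype q] {w n : ℕ} {τ : K ≃+* K}

/-- The action of a banded matrix as a linear map. -/
noncomputable def seqlb_appL {T : Ker K p q} (hT : Band T w) :
    (ℤ → q → K) →ₗ[K] (ℤ → p → K) where
  toFun := app T
  map_add' := app_add hT
  map_smul' := app_smul hT

omit [Fintype p] in
theorem seqlb_van {T : Ker K p q} (hT : Band T w) {v : ℤ → q → K} {j : ℤ}
    (h : ∀ j', |j - j'| ≤ w → v j' = 0) : app T v j = 0 := by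
  rw [app_congr hT (v' := 0) h, app_zero]
  rfl

omit [Fintype q] in
theorem seqlb_iter (τ : K ≃+* K) (n m : ℕ) (v : ℤ → q → K) (j : ℤ) (a : q) :
    (shv τ n)^[m] v j a = τ^[m] (v (j - m * n) a) := by
  induction m generalizing j with
  | zero => simp
  | succ m ih =>
    rw [Function.iterate_succ_apply', Function.iterate_succ_apply', shv, ih]
    congr 3
    push_cast
    ring

omit [Fintype q] in
theorem seqlb_iter_zero (τ : K ≃+* K) (n m : ℕ) (v : ℤ → q → K) (j : ℤ) :
    (shv τ n)^[m] v j = 0 ↔ v (j - m * n) = 0 := by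
  have h0 : τ^[m] 0 = 0 := Function.iterate_fixed (map_zero τ) m
  simp only [funext_iff, seqlb_iter, Pi.zero_apply]
  refine forall_congr' fun a => ⟨fun h => ?_, fun h => by rw [h, h0]⟩
  exact (τ.injective.iterate m) (h.trans h0.symm)

omit [Fintype p] in
theorem seqlb_app_iter {T : Ker K p q} (hT : Band T w) (hc : Cov τ n T) (m : ℕ)
    (v : ℤ → q → K) : app T ((shv τ n)^[m] v) = (shv τ n)^[m] (app T v) := by
  induction m with
  | zero => rfl
  | succ m ih => rw [Function.iterate_succ_apply', Function.iterate_succ_apply', app_shv hT hc, ih]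

/-- Counting lemma.  Suppose `v` vanishes above `j0`, `v j0 ≠ 0` and `T v` vanishes on `j ≥ j0 - L`
with `L` large.  With `M = 2 w |p| + 1` the translates `v_m = shv ^ m v`, `m < M`, have top index
`j0 + m n` and `T v_m` vanishes on `j ≥ j0 - L + M n =: c`.  Cut them to the indices `≥ c + w`:
the images under `T` live in the window `[c, c + 2 w)`, of dimension `< M`, so a non-trivial
combination is killed by `T`; it is finite and not zero (look at the largest `m` with a non-zero
coefficient; `L > M n + w`). -/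
theorem top_zero {T : Ker K p q} (hn : 0 < n) (hT : Band T w) (hc : Cov τ n T) (hi : FinInj T) :
    ∃ L : ℕ, ∀ (j0 : ℤ) (v : ℤ → q → K), (∀ j, j0 < j → v j = 0) →
      (∀ j, j0 - L ≤ j → app T v j = 0) → v j0 = 0 := by
  classical
  obtain ⟨M, hM⟩ : ∃ M, M = 2 * w * Fintype.card p + 1 := ⟨_, rfl⟩
  refine ⟨M * n + w, fun j0 v h1 h2 => ?_⟩
  let u : Fin M → ℤ → q → K := fun m j => if j0 ≤ j then (shv τ n)^[m] v j else 0
  have hmn : ∀ m : Fin M, (0 : ℤ) ≤ (m : ℕ) * n ∧ ((m : ℕ) : ℤ) * n ≤ M * n := fun m =>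
    ⟨by positivity, mul_le_mul_of_nonneg_right (by exact_mod_cast m.2.le) (by positivity)⟩
  have hu : ∀ m j, j < j0 - w ∨ j0 + w ≤ j → app T (u m) j = 0 := by
    rintro m j (h | h)
    · exact seqlb_van hT fun j' hj => if_neg (by have := abs_le.1 hj; omega)
    · rw [app_congr hT (v' := (shv τ n)^[m] v)
        (fun j' hj => if_pos (by have := abs_le.1 hj; omega)), seqlb_app_iter hT hc,
        seqlb_iter_zero]
      refine h2 _ ?_
      have := hmn m
      push_cast
      omega
  have hl : ¬ LinearIndependent K fun (m : Fin M) (i : Fin (2 * w) × p) =>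
      app T (u m) (j0 - w + (i.1 : ℕ)) i.2 := fun h => by
    have := h.fintype_card_le_finrank
    simp only [Module.finrank_fintype_fun_eq_card, Fintype.card_prod, Fintype.card_fin] at this
    omega
  obtain ⟨g, hg, hg0⟩ := Fintype.not_linearIndependent_iff.1 hl
  have hx : (∑ m, g m • u m) = 0 := by
    refine hi _ ⟨⟨j0, fun j hj => ?_⟩, ⟨-(j0 + M * n), fun j hj => ?_⟩⟩ ?_
    · rw [Finset.sum_apply]
      exact Finset.sum_eq_zero fun m _ => by
        rw [Pi.smul_apply, show u m j = 0 from if_neg (by omega), smul_zero]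
    · rw [Finset.sum_apply]
      refine Finset.sum_eq_zero fun m _ => ?_
      have := hmn m
      rw [Pi.smul_apply, show u m j = 0 from (if_pos (by omega)).trans
        ((seqlb_iter_zero τ n m v j).2 (h1 _ (by omega))), smul_zero]
    · have e : app T (∑ m, g m • u m) = ∑ m, g m • app T (u m) := by
        refine (map_sum (seqlb_appL hT) _ _).trans (Finset.sum_congr rfl fun m _ => ?_)
        exact app_smul hT _ _
      rw [e]
      funext j a
      by_cases hj : j < j0 - w ∨ j0 + w ≤ j
      · simp [Finset.sum_apply, hu _ _ hj]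
      · have := congrFun hg (⟨(j - (j0 - w)).toNat, by omega⟩, a)
        simp only [Finset.sum_apply, Pi.smul_apply] at this ⊢
        rwa [show j0 - w + ((j - (j0 - w)).toNat : ℤ) = j by omega] at this
  obtain ⟨m, hm, hmax⟩ := (Finset.univ.filter fun m => g m ≠ 0).exists_max_image id
    (by obtain ⟨m, hm⟩ := hg0; exact ⟨m, by simpa using hm⟩)
  simp only [Finset.mem_filter, Finset.mem_univ, true_and, id] at hm hmax
  have h3 := congrFun hx (j0 + (m : ℕ) * n)
  have := hmn m
  rw [Finset.sum_apply, Finset.sum_eq_single m, Pi.smul_apply, Pi.zero_apply, smul_eq_zero,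
    or_iff_right hm, show u m _ = _ from if_pos (by omega), seqlb_iter_zero,
    add_sub_cancel_right] at h3
  · exact h3
  · intro m' _ hne
    by_cases h0 : g m' = 0
    · rw [h0, zero_smul, Pi.zero_apply]
    · have h4 : ((m' : ℕ) : ℤ) * n < (m : ℕ) * n := mul_lt_mul_of_pos_right
        (by exact_mod_cast lt_of_le_of_ne (hmax m' h0) hne) (by exact_mod_cast hn)
      rw [Pi.smul_apply, show u m' _ = 0 from (if_pos (by omega)).trans
        ((seqlb_iter_zero τ n m' v _).2 (h1 _ (by omega))), smul_zero]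
  · simp

theorem seqlb_row {T : Ker K p q} (hn : 0 < n) (hT : Band T w) (hc : Cov τ n T) (hi : FinInj T) :
    ∃ L : ℕ, ∀ r : ℤ, ∃ y : ℤ → Matrix p q K, (∀ j, j ∉ Finset.Icc (r - L) (r + w) → y j = 0) ∧
      ∀ v : ℤ → q → K, (∀ j, r < j → v j = 0) →
        v r = ∑ j ∈ Finset.Icc (r - L) (r + w), (y j).transpose.mulVec (app T v j) := by
  obtain ⟨L, hL⟩ := top_zero hn hT hc hi
  refine ⟨L, fun r => ?_⟩
  let U : Submodule K (ℤ → q → K) :=
    { carrier := {v | ∀ j, r < j → v j = 0}
      add_mem' := fun h h' j hj => by rw [Pi.add_apply, h j hj, h' j hj, add_zero]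
      zero_mem' := fun _ _ => rfl
      smul_mem' := fun c _ h j hj => by rw [Pi.smul_apply, h j hj, smul_zero] }
  let f : Finset.Icc (r - L) (r + w) × p → U →ₗ[K] K := fun i =>
    (LinearMap.proj i.2).comp ((LinearMap.proj (i.1 : ℤ)).comp ((seqlb_appL hT).comp U.subtype))
  have key : ∀ k : q, ∃ c : Finset.Icc (r - L) (r + w) × p → K, ∑ i, c i • f i =
      (LinearMap.proj k).comp ((LinearMap.proj r).comp U.subtype) := fun k => by
    refine (Submodule.mem_span_range_iff_exists_fun K).1 (mem_span_of_iInf_ker_le_ker ?_)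
    intro v hv
    simp only [Submodule.mem_iInf, LinearMap.mem_ker] at hv ⊢
    refine congrFun (hL r v v.2 fun j hj => ?_) k
    by_cases h : j ≤ r + w
    · exact funext fun a => hv (⟨j, Finset.mem_Icc.2 ⟨hj, h⟩⟩, a)
    · exact seqlb_van hT fun j' h' => v.2 _ (by have := abs_le.1 h'; omega)
  choose c hc using key
  refine ⟨fun j => Matrix.of fun a k =>
    if h : j ∈ Finset.Icc (r - L) (r + w) then c k (⟨j, h⟩, a) else 0, fun j hj => ?_,
    fun v hv => funext fun k => ?_⟩
  · ext a k
    exact dif_neg hj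
  · have h1 := LinearMap.congr_fun (hc k) ⟨v, hv⟩
    rw [LinearMap.sum_apply, Fintype.sum_prod_type] at h1
    rw [Finset.sum_apply, ← Finset.sum_coe_sort]
    refine h1.symm.trans (Finset.sum_congr rfl fun j _ => Finset.sum_congr rfl fun a _ => ?_)
    exact congrArg (· * app T v j a) (dif_pos (t := fun h => c k (⟨j, h⟩, a)) j.2).symm

omit [Fintype p] [Fintype q] in
theorem seqlb_cov_zero {Z : Ker K p q} (h : Cov τ n Z) (m j j' : ℤ) :
    Z (j + m * n) (j' + m * n) = 0 ↔ Z j j' = 0 := by
  have h1 : ∀ j j', Z (j + n) (j' + n) = 0 ↔ Z j j' = 0 := fun j j' => by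
    rw [h]
    simp [← Matrix.ext_iff]
  induction m using Int.induction_on with
  | zero => simp
  | succ m ih =>
    rw [add_mul, one_mul, ← add_assoc, ← add_assoc, h1]
    exact ih
  | pred m ih =>
    rw [← h1, sub_mul, one_mul, ← add_sub_assoc, ← add_sub_assoc, sub_add_cancel, sub_add_cancel]
    exact ih

omit [Fintype p] in
theorem seqlb_one_sub [DecidableEq q] {S : Ker K q q} (hS : Band S w) (v : ℤ → q → K) :
    app (fun j j' => (if j = j' then 1 else 0) - S j j') v = v - app S v := by
  funext j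
  rw [app_eq_sum _ v j (Finset.Icc (j - w) (j + w)), Pi.sub_apply, app_band hS]
  · simp only [Matrix.sub_mulVec, Finset.sum_sub_distrib]
    rw [Finset.sum_eq_single j (fun j' _ h => by rw [if_neg h.symm, Matrix.zero_mulVec])
      (by simp), if_pos rfl, Matrix.one_mulVec]
  · intro j' hj
    rw [Finset.mem_Icc] at hj
    rw [if_neg (by omega), hS j j' (by rw [lt_abs]; omega), sub_zero]
    exact Or.inl rfl

theorem seqlb_pos {T : Ker K p q} (hn : 0 < n) (hT : Band T w) (hc : Cov τ n T) (hi : FinInj T) :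
    ∃ (Y : Ker K p q) (Z : Ker K q q) (w' : ℕ), Band Y w' ∧ Band Z w' ∧ Cov τ n Y ∧ Cov τ n Z ∧
      (∀ j j', Z j j' ≠ 0 → j < j') ∧ (∀ v, app (trK Y) (app T v) = v - app Z v) ∧
      ∀ u, app (trK T) (app Y u) = u - app (trK Z) u := by
  classical
  obtain ⟨L, hL⟩ := seqlb_row hn hT hc hi
  choose y y1 y2 using hL
  have hn' : (n : ℤ) ≠ 0 := by exact_mod_cast hn.ne'
  let Y : Ker K p q := fun j j' => (y (j' % n) (j - j' / n * n)).map ⇑(τ ^ (j' / n))
  have bY : Band Y (L + w) := fun j j' h => by
    have e := Int.emod_add_ediv_mul j' n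
    have h0 : y (j' % n) (j - j' / n * n) = 0 := y1 _ _ (by
      rw [Finset.mem_Icc]
      rw [lt_abs] at h
      push_cast at h
      omega)
    simp only [Y, h0]
    exact Matrix.map_zero _ (map_zero _)
  have cY : Cov τ n Y := fun j j' => by
    have e : (j' + n) / n = 1 + j' / n := by
      rw [add_comm 1, ← Int.add_mul_ediv_right _ _ hn', one_mul]
    simp only [Y, Int.add_emod_right, e, zpow_one_add]
    rw [show j + n - (1 + j' / n) * n = j - j' / n * n by ring]
    rfl
  have bS := band_compK (band_trK bY) hT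
  have cS := cov_compK (band_trK bY) (cov_trK cY) hc
  let Z : Ker K q q := fun j j' => (if j = j' then 1 else 0) - compK (trK Y) T j j'
  have cZ : Cov τ n Z := fun j j' => by
    simp only [Z, cS j j', add_left_inj]
    rw [Matrix.map_sub _ (map_sub τ)]
    congr 1
    split_ifs
    exacts [(Matrix.map_one _ (map_zero τ) (map_one τ)).symm, (Matrix.map_zero _ (map_zero τ)).symm]
  have eZ : ∀ v, app (trK Y) (app T v) = v - app Z v := fun v => by
    rw [seqlb_one_sub bS, app_compK (band_trK bY) hT, sub_sub_cancel]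
  refine ⟨Y, Z, L + w + w, fun j j' h => bY j j' (by push_cast at h ⊢; omega), fun j j' h => ?_,
    cY, cZ, fun j j' h => ?_, eZ, fun u => ?_⟩
  · simp only [Z]
    rw [bS j j' h, if_neg, sub_zero]
    rintro rfl
    rw [sub_self, abs_zero] at h
    omega
  · by_contra hj
    refine h ?_
    have e := Int.emod_add_ediv_mul j n
    obtain ⟨r, hr⟩ : ∃ r, r = j % n := ⟨_, rfl⟩
    have r1 : r % n = r := by rw [hr, Int.emod_emod]
    have r2 : r / n = 0 := Int.ediv_eq_zero_of_lt (hr ▸ Int.emod_nonneg _ hn')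
      (hr ▸ Int.emod_lt_of_pos _ (by omega))
    obtain ⟨i, hi'⟩ : ∃ i, i = j' - j / n * n := ⟨_, rfl⟩
    have h0 := seqlb_cov_zero cZ (j / n) r i
    rw [hr, e, hi', sub_add_cancel, ← hr, ← hi'] at h0
    rw [h0]
    refine Matrix.ext_of_mulVec_single fun k => ?_
    have h1 := congrFun (eZ (Pi.single i (Pi.single k 1))) r
    rw [app_eq_sum (trK Y) _ r (Finset.Icc (r - L) (r + w)) (fun j1 h1 => Or.inl (by
        simp [trK, Y, r1, r2, y1 r j1 h1])), Pi.sub_apply,
      app_eq_sum Z _ r {i} (fun j1 h1 => Or.inr (Pi.single_eq_of_ne (by simpa using h1) _)),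
      Finset.sum_singleton, Pi.single_eq_same,
      y2 r (Pi.single i (Pi.single k 1)) (fun j1 h1 => Pi.single_eq_of_ne (by omega) _)] at h1
    simp only [trK, Y, r1, r2, zpow_zero, zero_mul, sub_zero, RingAut.coe_one, Matrix.map_id] at h1
    rw [Matrix.zero_mulVec]
    exact sub_eq_self.1 h1.symm
  · have e : trK Z = fun j j' => (if j = j' then 1 else 0) - compK (trK T) Y j j' := by
      funext j j'
      simp only [trK, Z, compK, Matrix.transpose_sub]
      congr 1
      · by_cases h : j = j'
        · simp [h]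
        · simp [h, Ne.symm h]
      · refine ((Matrix.transposeAddEquiv q q K).map_finsum _).trans (finsum_congr fun k => ?_)
        simp [Matrix.transpose_mul]
    rw [e, seqlb_one_sub (band_compK (band_trK hT) bY), app_compK (band_trK hT) bY, sub_sub_cancel]

/-- The certificate.  For `0 ≤ j0 < n` and a coordinate `k`, the functional `v ↦ v j0 k` on vectors
supported in `[j0 - L - w, j0]` vanishes on the common kernel of the rows `j ∈ [j0 - L, j0 + w]`
(`top_zero`), so it is a combination of these rows (`mem_span_of_iInf_ker_le_ker`): this is column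
`(j0, k)` of `Y`; extend `Y` by covariance (`j0 = r + m n`, `τ ^ m`).  Then `Z = 1 - Yᵀ T`
(`compK`).  The case `e = -1` follows by reflection. -/
theorem seqLB {T : Ker K p q} (hn : 0 < n) (hT : Band T w) (hc : Cov τ n T) (hi : FinInj T)
    {e : ℤ} (he : e = 1 ∨ e = -1) :
    ∃ (Y : Ker K p q) (Z : Ker K q q) (w' : ℕ), Band Y w' ∧ Band Z w' ∧ Cov τ n Y ∧ Cov τ n Z ∧
      (∀ j j', Z j j' ≠ 0 → e * j < e * j') ∧
      (∀ v, app (trK Y) (app T v) = v - app Z v) ∧
      ∀ u, app (trK T) (app Y u) = u - app (trK Z) u := by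
  rcases he with rfl | rfl
  · simpa only [one_mul] using seqlb_pos hn hT hc hi
  · obtain ⟨Y, Z, w', h1, h2, h3, h4, h5, h6, h7⟩ :=
      seqlb_pos hn (band_rf hT) (cov_rf hc) (finInj_rf hi)
    have r1 : ∀ {α : Type} (v : ℤ → α), rfv (rfv v) = v := fun v => funext fun j => by simp [rfv]
    have r2 : ∀ {a b : Type} (S : Ker K a b), rfK (rfK S) = S := fun S =>
      funext fun j => funext fun j' => by simp [rfK]
    have r3 : ∀ {a b : Type} [Fintype b] (S : Ker K a b) (v : ℤ → b → K),
        app (rfK S) v = rfv (app S (rfv v)) := fun S v => by rw [← app_rf, r1]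
    refine ⟨rfK Y, rfK Z, w', band_rf h1, band_rf h2, cov_rf h3, cov_rf h4,
      fun j j' h => by simpa using h5 _ _ h, fun v => ?_, fun u => ?_⟩
    · change app (rfK (trK Y)) _ = _
      rw [r3, ← app_rf T, h6, r3 Z]
      exact congrArg (· - rfv (app Z (rfv v))) (r1 v)
    · change _ = u - app (rfK (trK Z)) u
      rw [← r2 (trK T), r3, r3 Y, r1, r3 (trK Z)]
      exact (congrArg rfv (h7 (rfv u))).trans (congrArg (· - rfv (app (trK Z) (rfv u))) (r1 u))

/-- A strictly triangular matrix has no fixed vector with an extreme index. -/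
theorem tri_inj {Z : Ker K q q} {e : ℤ} (he : e = 1 ∨ e = -1)
    (hZ : ∀ j j', Z j j' ≠ 0 → e * j < e * j') {v : ℤ → q → K} (hv : Bd (-e) v)
    (h : app Z v = v) : v = 0 := by
  obtain ⟨J, hJ⟩ := hv
  have key : ∀ (k : ℕ) (j : ℤ), -e * j < J + k → v j = 0 := by
    intro k
    induction k with
    | zero => simpa using hJ
    | succ k ih =>
      intro j hj
      rw [← h, app_eq_sum Z v j ∅, Finset.sum_empty]
      intro j' _
      refine or_iff_not_imp_left.2 fun h1 => ih j' ?_
      have := hZ j j' h1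
      rcases he with rfl | rfl <;> omega
  funext j
  exact key ((-e * j - J).toNat + 1) j (by omega)

theorem inj_bd {T : Ker K p q} (hn : 0 < n) (hT : Band T w) (hc : Cov τ n T) (hi : FinInj T)
    {e : ℤ} (he : e = 1 ∨ e = -1) {v : ℤ → q → K} (hv : Bd e v) (h : app T v = 0) : v = 0 := by
  have he' : -e = 1 ∨ -e = -1 := by omega
  obtain ⟨Y, Z, w', -, -, -, -, h5, h6, -⟩ := seqLB hn hT hc hi he'
  refine tri_inj he' h5 (by rwa [neg_neg]) ?_
  have h1 := h6 v
  rw [h, app_zero] at h1
  exact (sub_eq_zero.1 h1.symm).symm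

/-- The geometric series of a strictly raising matrix: define `s (J + k)` by strong recursion on
`k : ℕ`. -/
theorem geom {Z : Ker K q q} (hb : Band Z w) (hZ : ∀ j j', Z j j' ≠ 0 → j' < j) (J : ℤ)
    (u : ℤ → q → K) (hu : ∀ j, j < J → u j = 0) :
    ∃ s : ℤ → q → K, (∀ j, j < J → s j = 0) ∧ s - app Z s = u ∧
      ∀ O : Subring K, (∀ j j', J ≤ j → ∀ a b, Z j j' a b ∈ O) → IntS O u → IntS O s := by
  have loc : ∀ (v v' : ℤ → q → K) j, (∀ j', j' < j → v j' = v' j') → app Z v j = app Z v' j :=
    fun v v' j h => finsum_congr fun j' => by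
      by_cases h0 : Z j j' = 0
      · rw [h0, Matrix.zero_mulVec, Matrix.zero_mulVec]
      · rw [h j' (hZ j j' h0)]
  let t : ℕ → ℤ → q → K := fun k => (fun x => u + app Z x)^[k] 0
  have ts : ∀ k, t (k + 1) = u + app Z (t k) := fun k => Function.iterate_succ_apply' _ k 0
  have st : ∀ (k : ℕ) (j : ℤ), j < J + k → t (k + 1) j = t k j := by
    intro k
    induction k with
    | zero =>
      intro j hj
      rw [ts]
      change u j + app Z 0 j = 0
      rw [hu j (by simpa using hj), app_zero, zero_add, Pi.zero_apply]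
    | succ k ih =>
      intro j hj
      rw [ts (k + 1), Pi.add_apply, loc _ _ j fun j' h => ih j' (by omega), ← Pi.add_apply, ← ts]
  have st' : ∀ (k l : ℕ) (j : ℤ), j < J + k → k ≤ l → t l j = t k j := fun k l j hj hl => by
    induction l, hl using Nat.le_induction with
    | base => rfl
    | succ l hl ih => rw [st l j (by omega), ih]
  refine ⟨fun j => t ((j - J).toNat + 1) j, fun j hj => st' 0 _ j (by omega) (by omega), ?_,
    fun O hO hu' => ?_⟩
  · funext j
    rw [Pi.sub_apply, ts, Pi.add_apply, loc (fun j => t ((j - J).toNat + 1) j) (t (j - J).toNat) j,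
      add_sub_cancel_right]
    intro j' h
    by_cases h1 : j' < J
    · rw [st' 0 _ j' (by omega) (by omega), st' 0 (j - J).toNat j' (by omega) (by omega)]
    · exact (st' _ _ j' (by omega) (by omega)).symm
  · have hi : ∀ k, IntS O (t k) := fun k => by
      induction k with
      | zero => exact fun _ _ => zero_mem _
      | succ k ih =>
        intro j a
        by_cases h : j < J
        · rw [st' 0 _ j (by omega) (by omega)]
          exact zero_mem _
        · rw [ts, Pi.add_apply, app_band hb, Pi.add_apply, Finset.sum_apply]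
          exact add_mem (hu' j a) (sum_mem fun j' _ =>
            sum_mem fun b _ => mul_mem (hO j j' (by omega) a b) (ih j' b))
    exact fun j a => hi _ j a

end Pool.Agent.AS
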