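import Pool.Agent.Lib.MP_dae8ad_gt.S.SeqLB

namespace Pool.Agent.AS

variable {K : Type} [Field K] {p q b d : Type} [Fintype p] [Fintype q] [Fintype b] [Fintype d]
  {w n : ℕ} {τ : K ≃+* K}

omit [Fintype p] in
theorem seqLD_top {v : ℤ → p → K} (hv : Fs v) (h0 : v ≠ 0) :
    ∃ (a : ℤ) (s : ℕ), (∀ j, j < a → v j = 0) ∧ (∀ j, a + s < j → v j = 0) ∧ v (a + s) ≠ 0 := by
  obtain ⟨⟨a, ha⟩, b, hb⟩ := hv
  obtain ⟨j, hj⟩ := Function.ne_iff.1 h0
  obtain ⟨t, h1, h2⟩ := Int.exists_greatest_of_bdd (P := fun j => v j ≠ 0)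
    ⟨-b, fun j hj => by_contra fun h => hj (hb j (by omega))⟩ ⟨j, hj⟩
  have h3 : a ≤ t := by_contra fun h => h1 (ha t (by omega))
  obtain ⟨s, rfl⟩ := Int.le.dest h3
  exact ⟨a, s, fun j hj => ha j (by omega), fun j hj => by_contra fun h => by
    have := h2 j h
    omega, h1⟩

omit [Fintype p] in
theorem seqLD_iter (v : ℤ → p → K) (m : ℕ) (j : ℤ) :
    (shv τ n)^[m] v j = 0 ↔ v (j - m * n) = 0 := by
  induction m generalizing j with
  | zero => simp
  | succ m ih =>
    have e : j - (m + 1 : ℕ) * n = j - n - m * n := by push_cast; ring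
    rw [Function.iterate_succ_apply', e, ← ih]
    simp only [funext_iff, shv, Pi.zero_apply, map_eq_zero]

theorem seqLD_rank {α β : Type} [Fintype α] [Fintype β] (A : Matrix α β K)
    (h : ∀ u, A.mulVec u = 0 → u = 0) : A.rank = Fintype.card β := by
  rw [Matrix.rank, LinearMap.finrank_range_of_inj, Module.finrank_fintype_fun_eq_card]
  exact (injective_iff_map_eq_zero _).2 h

/-- Suppose `v ≠ 0` is finite, supported in `[a, a + s]`, and killed by the transpose.  The
translates `v_m`, `m < M`, are independent (distinct top indices) and supported in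
`W' = [a - w, a + L + w)`, `L = s + 1 + M n`.  The finite matrix `A` of `T` with rows in `W' × p` and
columns in `[a, a + L) × q` is injective, the matrix `B` with rows `v_m` has `B A = 0`, so
`M + L |q| ≤ (L + 2 w) |p|` (`Matrix.rank_add_rank_le_card_of_mul_eq_zero`, or dimensions of
orthogonal subspaces), which fails for `M = 2 w |p| + 1`. -/
theorem seqLD {T : Ker K p q} (hn : 0 < n) (hT : Band T w) (hc : Cov τ n T) (hi : FinInj T)
    (h : Fintype.card p = Fintype.card q) : FinInj (trK T) := by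
  classical
  intro v hv h0
  by_contra hne
  obtain ⟨a, s, h1, h2, h3⟩ := seqLD_top hv hne
  set M := 2 * w * Fintype.card p + 1 with hM
  set L := s + 1 + M * n with hL
  have hk : ∀ m, app (trK T) ((shv τ n)^[m] v) = 0 := fun m => by
    induction m with
    | zero => exact h0
    | succ m ih =>
      rw [Function.iterate_succ_apply', app_shv (band_trK hT) (cov_trK hc), ih]
      funext j x
      simp [shv]
  have hb : ∀ m : Fin M, ((m : ℕ) : ℤ) * n < M * n ∧ 0 ≤ ((m : ℕ) : ℤ) * n := fun m =>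
    ⟨mul_lt_mul_of_pos_right (by exact_mod_cast m.2) (by exact_mod_cast hn), by positivity⟩
  have hL' : (L : ℤ) = s + 1 + M * n := by rw [hL]; push_cast; ring
  let A : Matrix (Finset.Ico (a - w) (a + L + w) × p) (Finset.Ico a (a + L) × q) K :=
    fun x y => T x.1 y.1 x.2 y.2
  let B : Matrix (Fin M) (Finset.Ico (a - w) (a + L + w) × p) K :=
    fun m x => (shv τ n)^[m] v x.1 x.2
  have hBA : B * A = 0 := by
    ext m ⟨j, y⟩
    have e := congrFun (app_eq_sum (trK T) ((shv τ n)^[m] v) j (Finset.Ico (a - w) (a + L + w))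
      fun j' hj' => Or.inr ((seqLD_iter v m j').2 ?_)) y
    · rw [hk, Finset.sum_apply, ← Finset.sum_coe_sort] at e
      rw [Matrix.mul_apply, Fintype.sum_prod_type, Matrix.zero_apply]
      refine Eq.trans (Finset.sum_congr rfl fun j' _ => ?_) e.symm
      simp [A, B, trK, Matrix.mulVec, dotProduct, mul_comm]
    · have := hb m
      rw [Finset.mem_Ico] at hj'
      by_cases hj : j' < a - w
      · exact h1 _ (by omega)
      · exact h2 _ (by omega)
  have hA : A.rank = _ := seqLD_rank A fun u hu => by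
    let u' : ℤ → q → K := fun j y => if h : j ∈ Finset.Ico a (a + L) then u (⟨j, h⟩, y) else 0
    have hu' : ∀ j, j ∉ Finset.Ico a (a + L) → u' j = 0 := fun j hj => funext fun y => dif_neg hj
    have e := hi u' ⟨⟨a, fun j hj => hu' j (by rw [Finset.mem_Ico]; omega)⟩,
      -(a + L), fun j hj => hu' j (by rw [Finset.mem_Ico]; omega)⟩ (funext fun j => by
        rw [app_eq_sum T u' j _ fun j' hj' => Or.inr (hu' j' hj')]
        by_cases hj : j ∈ Finset.Ico (a - w) (a + L + w)
        · funext x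
          have e := congrFun hu (⟨j, hj⟩, x)
          rw [Matrix.mulVec, dotProduct, Fintype.sum_prod_type] at e
          rw [Finset.sum_apply, ← Finset.sum_coe_sort]
          refine Eq.trans (Finset.sum_congr rfl fun j' _ => ?_) e
          simp only [A, u', Matrix.mulVec, dotProduct, dif_pos j'.2]
        · refine Finset.sum_eq_zero fun j' hj' => ?_
          rw [Finset.mem_Ico] at hj hj'
          rw [hT j j' (lt_abs.2 (by omega)), Matrix.zero_mulVec])
    funext ⟨j, y⟩
    have := congrFun (congrFun e j) y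
    simp only [u', dif_pos j.2] at this
    exact this
  have hB : B.rank = _ := (Matrix.rank_transpose B).symm.trans (seqLD_rank _ fun c hc' => by
    by_contra hc0
    obtain ⟨m, hm, hmax⟩ := (Finset.univ.filter fun m => c m ≠ 0).exists_max_image id
      (by obtain ⟨m, hm⟩ := Function.ne_iff.1 hc0; exact ⟨m, by simpa using hm⟩)
    have h4 : (shv τ n)^[m] v (a + s + (m : ℕ) * n) ≠ 0 := fun e =>
      h3 (by simpa using (seqLD_iter v m _).1 e)
    obtain ⟨x, hx⟩ := Function.ne_iff.1 h4
    have := hb m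
    have e := congrFun hc' (⟨a + s + (m : ℕ) * n, by rw [Finset.mem_Ico]; omega⟩, x)
    rw [Matrix.mulVec, dotProduct, Finset.sum_eq_single m (fun k _ hk => ?_) (by simp)] at e
    · exact mul_ne_zero hx (Finset.mem_filter.1 hm).2 e
    · by_cases hk0 : c k = 0
      · rw [hk0, mul_zero]
      · have h5 : k < m := lt_of_le_of_ne (hmax k (by simpa using hk0)) hk
        have h6 : ((k : ℕ) : ℤ) * n < (m : ℕ) * n :=
          mul_lt_mul_of_pos_right (by exact_mod_cast h5) (by exact_mod_cast hn)
        have h7 := (seqLD_iter (τ := τ) (n := n) v k (a + s + (m : ℕ) * n)).2 (h2 _ (by omega))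
        simp [B, h7])
  have h5 := Matrix.rank_add_rank_le_card_of_mul_eq_zero hBA
  rw [hA, hB] at h5
  simp only [Fintype.card_prod, Fintype.card_coe, Int.card_Ico, Fintype.card_fin] at h5
  rw [show (a + L + w - (a - w)).toNat = L + 2 * w by omega,
    show (a + L - a).toNat = L by omega, ← h] at h5
  nlinarith

/-- Exactness.  Take `Y`, `Z` from `seqLB` for `V` with `e = -1`.  The square matrix `Θ = [T | Y]`
(columns `b ⊕ d`) is injective on finite sequences (apply `Vᵀ`, `tri_inj`), so is its transpose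
(`seqLD`), also on sequences bounded below (`inj_bd`).  Solve `c - Z c = Yᵀ z` (`geom`); then
`Θᵀ (V c - z) = 0`. -/
theorem seqS1 {O : Subring K} {V : Ker K p d} {T : Ker K p b} (h : Duo O τ n w V T)
    (z : ℤ → p → K) (hz : Bd 1 z) (h0 : app (trK T) z = 0) : ∃ c, Bd 1 c ∧ app V c = z := by
  obtain ⟨Y, Z, w', bY, bZ, cY, -, hZ, h1, h2⟩ := seqLB h.npos h.bV h.cV h.fV (e := -1) (Or.inr rfl)
  obtain ⟨o1, o2⟩ := orth_all h.bV h.bT h.orth
  let Θ : Ker K p (b ⊕ d) := fun j j' => Matrix.fromCols (T j j') (Y j j')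
  have bΘ : Band Θ (w + w') := fun j j' hj => by
    push_cast at hj
    simp only [Θ]
    rw [h.bT j j' (by omega), bY j j' (by omega), Matrix.fromCols_zero]
  have cΘ : Cov τ n Θ := fun j j' => by
    simp only [Θ]
    rw [h.cT j j', cY j j', Matrix.fromCols_map]
  have bT' : Band T (w + w') := fun j j' hj => h.bT j j' (by push_cast at hj; omega)
  have bY' : Band Y (w + w') := fun j j' hj => bY j j' (by push_cast at hj; omega)
  have fΘ : FinInj Θ := fun v hv hv0 => by
    have e : app Θ v = app T (fun j => v j ∘ Sum.inl) + app Y fun j => v j ∘ Sum.inr := by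
      funext j
      rw [Pi.add_apply, app_band bΘ, app_band bT', app_band bY', ← Finset.sum_add_distrib]
      exact Finset.sum_congr rfl fun j' _ => Matrix.fromCols_mulVec _ _ _
    have fs : ∀ {α : Type} (f : α → b ⊕ d), Fs fun j => v j ∘ f := fun f =>
      ⟨hv.1.imp fun J hJ j hj => congrArg (· ∘ f) (hJ j hj),
        hv.2.imp fun J hJ j hj => congrArg (· ∘ f) (hJ j hj)⟩
    rw [e] at hv0
    have e2 := congrArg (app (trK V)) hv0
    rw [app_add (band_trK h.bV), o1, h2, app_zero, zero_add, sub_eq_zero] at e2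
    have e3 := tri_inj (Z := trK Z) (e := 1) (Or.inl rfl) (fun j j' hj => by
      have := hZ j' j fun e => hj (by rw [trK, e, Matrix.transpose_zero])
      omega) (fs Sum.inr).2 e2.symm
    rw [e3, app_zero, add_zero] at hv0
    have e4 := h.fT _ (fs Sum.inl) hv0
    funext j x
    cases x with
    | inl x => exact congrFun (congrFun e4 j) x
    | inr x => exact congrFun (congrFun e3 j) x
  obtain ⟨J, hJ⟩ := app_bd (band_trK bY) (Or.inl rfl) hz
  obtain ⟨c, c1, c2, -⟩ := geom bZ (fun j j' hj => by have := hZ j j' hj; omega) J _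
    fun j hj => hJ j (by omega)
  have hc : Bd 1 c := ⟨J, fun j hj => c1 j (by omega)⟩
  refine ⟨c, hc, sub_eq_zero.1 (inj_bd h.npos (band_trK bΘ) (cov_trK cΘ)
    (seqLD h.npos bΘ cΘ fΘ (by rw [Fintype.card_sum, h.card])) (Or.inl rfl) ?_ ?_)⟩
  · obtain ⟨J1, h3⟩ := app_bd h.bV (Or.inl rfl) hc
    obtain ⟨J2, h4⟩ := hz
    exact ⟨min J1 J2, fun j hj => by
      rw [Pi.sub_apply, h3 j (by omega), h4 j (by omega), sub_zero]⟩
  · have e1 : app (trK T) (app V c - z) = 0 := by rw [app_sub (band_trK h.bT), o2, h0, sub_zero]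
    have e2 : app (trK Y) (app V c - z) = 0 := by rw [app_sub (band_trK bY), h1, c2, sub_self]
    funext j x
    have e3 := congrFun e1 j
    have e4 := congrFun e2 j
    rw [app_band (band_trK bT')] at e3
    rw [app_band (band_trK bY')] at e4
    rw [app_band (band_trK bΘ), Finset.sum_apply]
    cases x with
    | inl x => exact ((Finset.sum_apply x _ _).symm.trans (congrFun e3 x) :)
    | inr x => exact ((Finset.sum_apply x _ _).symm.trans (congrFun e4 x) :)

/-- Far integral surjectivity: `seqLB` for `T` with `e = 1`, `far_int` for `trK Y` and `trK Z`,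
`geom` for `trK Z`, `z = Y s`. -/
theorem seqS2 {O : Subring K} (hF : Far O τ) {T : Ker K p b} (hn : 0 < n) (hT : Band T w)
    (hc : Cov τ n T) (hi : FinInj T) :
    ∃ (J0 : ℤ) (w' : ℕ), ∀ J, J0 ≤ J → ∀ u : ℤ → b → K, (∀ j, j < J → u j = 0) → IntS O u →
      ∃ z : ℤ → p → K, (∀ j, j < J - w' → z j = 0) ∧ IntS O z ∧ app (trK T) z = u := by
  obtain ⟨Y, Z, w', bY, bZ, cY, cZ, hZ, -, h2⟩ := seqLB hn hT hc hi (e := 1) (Or.inl rfl)
  obtain ⟨J1, h3⟩ := far_int hF hn (band_trK bY) (cov_trK cY)
  obtain ⟨J2, h4⟩ := far_int hF hn (band_trK bZ) (cov_trK cZ)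
  refine ⟨max J1 J2, w', fun J hJ u hu iu => ?_⟩
  obtain ⟨s, s1, s2, s3⟩ := geom (band_trK bZ) (fun j j' hj => by
    have := hZ j' j fun e => hj (by rw [trK, e, Matrix.transpose_zero])
    omega) J u hu
  have s4 := s3 O (fun j j' hj => h4 j j' (by omega)) iu
  refine ⟨app Y s, fun j hj => ?_, fun j x => ?_, by rw [h2, s2]⟩
  · rw [app_band bY]
    refine Finset.sum_eq_zero fun j' hj' => ?_
    rw [s1 j' (by have := Finset.mem_Icc.1 hj'; omega), Matrix.mulVec_zero]
  · rw [app_band bY, Finset.sum_apply]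
    refine O.sum_mem fun j' _ => ?_
    by_cases hj : j' < J
    · rw [s1 j' hj, Matrix.mulVec_zero]
      exact O.zero_mem
    · exact O.sum_mem fun y _ => O.mul_mem (h3 j' j (by omega) y x) (s4 j' y)

end Pool.Agent.AS
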