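import Pool.Agent.Lib.MP_dae8ad_gt.S.SeqLD

namespace Pool.Agent.AS

variable {K : Type} [Field K] {p b d : Type} [Fintype p] [Fintype b] [Fintype d]
  {w n : ℕ} {τ : K ≃+* K} {O : Subring K} {V : Ker K p d} {T : Ker K p b}

theorem seqMax_smul (u v : ℤ → p → K) (hv : (Function.support v).Finite) (a : K) :
    pair u (a • v) = a * pair u v := by
  have h0 : ∀ j, j ∉ hv.toFinset → v j = 0 := fun j hj => by simpa using hj
  rw [pair_eq_sum u v hv.toFinset fun j hj => Or.inr (h0 j hj),
    pair_eq_sum u (a • v) hv.toFinset fun j hj => Or.inr (by simp [h0 j hj]), Finset.mul_sum]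
  simp

/-- Finite integral sequences. -/
def seqMax_F (O : Subring K) (p : Type) : Submodule O (ℤ → p → K) where
  carrier := {z | (Function.support z).Finite ∧ IntS O z}
  zero_mem' := ⟨by simp, fun _ _ => O.zero_mem⟩
  add_mem' := fun {u v} hu hv => ⟨(hu.1.union hv.1).subset (Function.support_add u v),
    fun j a => O.add_mem (hu.2 j a) (hv.2 j a)⟩
  smul_mem' := fun c v hv => ⟨hv.1.subset (Function.support_const_smul_subset c v),
    fun j a => O.mul_mem c.2 (hv.2 j a)⟩

theorem seqMax_exp [DecidableEq b] (f : ℤ → b → O) (s : Finset ℤ) (h : ∀ j, j ∉ s → f j = 0) :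
    (fun j k => (f j k : K)) =
      ∑ j ∈ s, ∑ k, f j k • (Pi.single j (Pi.single k (1 : K)) : ℤ → b → K) := by
  funext j0 k0
  simp only [Finset.sum_apply, Pi.smul_apply]
  rw [Finset.sum_eq_single j0, Finset.sum_eq_single k0]
  · simp [Subring.smul_def]
  · intro k _ hk
    simp [hk.symm]
  · simp
  · intro j _ hj
    simp [hj.symm]
  · intro hj
    simp [h j0 hj]

/-- Let `x` vanish above `Jx`, `J ≥ max J0 (Jx + w' + 1)` (`seqS2`).  `F = ℤ × p →₀ O`,
`E = ℤ × b →₀ O`, `α z` = the part of `Tᵀ z` below `J`, `ψ z = pair z x` in `K / O` (define both by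
`Finsupp.lift` or `Finsupp.linearCombination`).  If `α z = 0` take `z'` from `seqS2` with
`Tᵀ z' = Tᵀ z`; `z - z' = V c` (`seqS1`), `pair z' x = 0`, so `ψ z = 0`.  Extend by `baer_ext` to
`φ`; let `m j k` be a lift of `φ (single (j, k) 1)` for `j < J` and `0` for `j ≥ J`; evaluate at
`z = single (j, a) 1`. -/
theorem seqMax1 (hp : IsPrincipalIdealRing O) (hF : Far O τ) (h : Duo O τ n w V T)
    (x : ℤ → p → K) (hx : Bd (-1) x)
    (H : ∀ c, Bd 1 c → IntS O (app V c) → pair (app V c) x ∈ O) :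
    ∃ m, Bd (-1) m ∧ IntS O (x - app T m) := by
  classical
  obtain ⟨J0, w', hS⟩ := seqS2 hF h.npos h.bT h.cT h.fT
  obtain ⟨Jx, hJx⟩ := hx
  obtain ⟨J, hJ0, hJ1⟩ : ∃ J : ℤ, J0 ≤ J ∧ -Jx + w' + 1 ≤ J :=
    ⟨max _ _, le_max_left _ _, le_max_right _ _⟩
  have hB := band_trK h.bT
  have hI : IntK O (trK T) := fun j j' a k => h.iT j' j k a
  have fin : ∀ z : seqMax_F O p, {j | x j ≠ 0 ∧ z.1 j ≠ 0}.Finite :=
    fun z => z.2.1.subset fun j hj => hj.2
  let α : seqMax_F O p →ₗ[O] (ℤ → b → K) :=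
    { toFun := fun z j => if j < J then app (trK T) z.1 j else 0
      map_add' := fun u v => by
        funext j
        simp only [Submodule.coe_add, app_add hB, Pi.add_apply]
        split_ifs <;> simp
      map_smul' := fun c v => by
        funext j
        have : (c • v).1 = (c : K) • v.1 := rfl
        simp only [this, app_smul hB, Pi.smul_apply, RingHom.id_apply]
        split_ifs
        · rfl
        · simp }
  let ψ : seqMax_F O p →ₗ[O] QO O :=
    { toFun := fun z => Submodule.Quotient.mk (pair x z.1)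
      map_add' := fun u v => by
        rw [Submodule.coe_add, pair_add _ _ (fin u) (fin v), Submodule.Quotient.mk_add]
      map_smul' := fun c v => by
        have : (c • v).1 = (c : K) • v.1 := rfl
        rw [this, seqMax_smul _ _ v.2.1, RingHom.id_apply, ← Submodule.Quotient.mk_smul]
        rfl }
  obtain ⟨φ, hφ⟩ := baer_ext hp α ψ (by
    intro z hz
    obtain ⟨z', h1, h2, h3⟩ := hS J hJ0 (app (trK T) z.1)
      (fun j hj => (if_pos hj).symm.trans (congrFun hz j)) (app_int hI z.2.2)
    obtain ⟨J1, h4⟩ := ((fs_iff _).2 z.2.1).1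
    have h5 : Bd 1 z' := ⟨J - w', fun j hj => h1 j (by omega)⟩
    obtain ⟨c, hc, h6⟩ := seqS1 h (z.1 - z') ⟨min J1 (J - w'), fun j hj => by
      rw [Pi.sub_apply, h4 j (by omega), h1 j (by omega), sub_zero]⟩
      (by rw [app_sub hB, h3, sub_self])
    have h7 := H c hc (h6 ▸ fun j a => O.sub_mem (z.2.2 j a) (h2 j a))
    have h8 : ∀ j, x j = 0 ∨ z' j = 0 := fun j => by
      by_cases t : j < J - w'
      · exact Or.inr (h1 j t)
      · exact Or.inl (hJx j (by omega))
    rw [h6, pair_comm, pair_sub _ _ (fin z) (Set.finite_empty.subset fun j hj =>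
      (h8 j).elim hj.1 hj.2), pair_eq_sum x z' ∅ fun j _ => h8 j, Finset.sum_empty, sub_zero] at h7
    exact (QO_zero O _).2 h7)
  choose m hm using fun (j : ℤ) (k : b) =>
    Submodule.Quotient.mk_surjective _ (φ (Pi.single j (Pi.single k (1 : K))))
  refine ⟨fun j => if j < J then m j else 0, ⟨-J + 1, fun j hj => if_neg (by omega)⟩,
    fun j a => ?_⟩
  let z : seqMax_F O p := ⟨Pi.single j (Pi.single a 1),
    (Set.finite_singleton j).subset Pi.support_single_subset, fun j' a' => by
      simp only [Pi.single_apply, ite_apply, Pi.zero_apply]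
      split_ifs
      exacts [O.one_mem, O.zero_mem, O.zero_mem]⟩
  have z0 : ∀ j', j' ∉ ({j} : Finset ℤ) → z.1 j' = 0 := fun j' hj =>
    Pi.single_eq_of_ne (by simpa using hj) _
  let c : ℤ → b → O := fun j' k => if j' < J then ⟨T j j' a k, h.iT _ _ _ _⟩ else 0
  have e1 : α z = fun j' k => (c j' k : K) := by
    funext j' k
    change (if j' < J then app (trK T) z.1 j' else 0) k = _
    rw [app_eq_sum _ _ _ {j} fun j' hj => Or.inr (z0 j' hj)]
    by_cases t : j' < J <;> simp [c, z, t, trK]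
  have e2 : ψ z = Submodule.Quotient.mk (x j a) := by
    change Submodule.Quotient.mk (pair x z.1) = _
    rw [pair_eq_sum _ _ {j} fun j' hj => Or.inr (z0 j' hj)]
    simp [z]
  have e3 := hφ z
  rw [e1, e2, seqMax_exp c (Finset.Icc (j - w) (j + w)) (fun j' hj => by
    have t : T j j' = 0 := h.bT j j' (by
      rw [Finset.mem_Icc] at hj
      rw [lt_abs]
      omega)
    funext k
    by_cases t' : j' < J <;> simp [c, t, t'])] at e3
  simp only [map_sum, map_smul, ← hm] at e3
  rw [← QO_zero, Pi.sub_apply, Pi.sub_apply, Submodule.Quotient.mk_sub, ← e3, app_band h.bT,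
    sub_eq_zero, ← Submodule.mkQ_apply]
  simp only [Finset.sum_apply, Matrix.mulVec, dotProduct, map_sum, Submodule.mkQ_apply,
    ← Submodule.Quotient.mk_smul]
  refine Finset.sum_congr rfl fun j' _ => Finset.sum_congr rfl fun k _ => congrArg _ ?_
  by_cases t : j' < J <;> simp [c, t, Subring.smul_def]

/-- By reflection (`duo_rf`). -/
theorem seqMax (hp : IsPrincipalIdealRing O) (hF : Far O τ) (h : Duo O τ n w V T) {e : ℤ}
    (he : e = 1 ∨ e = -1) (x : ℤ → p → K) (hx : Bd (-e) x)
    (H : ∀ c, Bd e c → IntS O (app V c) → pair (app V c) x ∈ O) :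
    ∃ m, Bd (-e) m ∧ IntS O (x - app T m) := by
  rcases he with rfl | rfl
  · exact seqMax1 hp hF h x hx H
  · obtain ⟨m, h1, h2⟩ := seqMax1 hp (τ := τ.symm) (fun k => (hF k).imp fun _ t m hm =>
      ⟨(t m hm).2, (t m hm).1⟩) (duo_rf h) (rfv x) ((bd_rf _ _).2 hx) (fun c hc hi => by
        have e : rfv (rfv c) = c := funext fun j => congrArg c (neg_neg j)
        rw [← e, app_rf] at hi ⊢
        rw [pair_rf]
        exact H _ ((bd_rf _ _).2 hc) fun j a => by simpa [rfv] using hi (-j) a)
    have e : rfv (rfv m) = m := funext fun j => congrArg m (neg_neg j)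
    refine ⟨rfv m, (bd_rf _ _).2 h1, fun j a => ?_⟩
    rw [← e, app_rf] at h2
    simpa [rfv] using h2 (-j) a

end Pool.Agent.AS
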